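import Mathlib
import Pool.Agent.Helper35.HC.StA

/-!
Project HC (MP_925021_gt), module INA: initial values.
-/

set_option autoImplicit false

namespace Helper86.HC

open Helper35.HC Helper35.HSF Helper35.MS Helper35.PI Helper35.PI2 Helper32.CL
open Matrix BigOperators

theorem exists_diag {n : ℕ} (M : Matrix (Fin n) (Fin n) ℝ) (hM : M.IsHermitian) :
    ∃ (O : Matrix (Fin n) (Fin n) ℝ) (l : Fin n → ℝ), Oᵀ * O = 1 ∧ O * Oᵀ = 1 ∧
      Oᵀ * M * O = Matrix.diagonal l := by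
  refine ⟨(hM.eigenvectorUnitary : Matrix _ _ ℝ), hM.eigenvalues, ?_, ?_, ?_⟩
  · have h := Unitary.coe_star_mul_self hM.eigenvectorUnitary
    rwa [Matrix.star_eq_conjTranspose, Matrix.conjTranspose_eq_transpose_of_trivial] at h
  · have h := Unitary.coe_star_mul_self hM.eigenvectorUnitary
    rw [Matrix.star_eq_conjTranspose, Matrix.conjTranspose_eq_transpose_of_trivial] at h
    exact mul_eq_one_comm.mp h
  · have h := hM.conjStarAlgAut_star_eigenvectorUnitary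
    rw [Unitary.conjStarAlgAut_star_apply, Matrix.star_eq_conjTranspose,
      Matrix.conjTranspose_eq_transpose_of_trivial] at h
    exact h

theorem fr_trace {n : ℕ} (N : Matrix (Fin n) (Fin n) ℝ) :
    ∑ i, ∑ j, N i j ^ 2 = (Nᵀ * N).trace := by
  rw [Finset.sum_comm]
  simp [Matrix.trace, Matrix.mul_apply, pow_two]

theorem fr_conj {n : ℕ} (N O : Matrix (Fin n) (Fin n) ℝ) (h1 : O * Oᵀ = 1) :
    ∑ i, ∑ j, (Oᵀ * N * O) i j ^ 2 = ∑ i, ∑ j, N i j ^ 2 := by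
  rw [fr_trace, fr_trace]
  have e : (Oᵀ * N * O)ᵀ * (Oᵀ * N * O) = Oᵀ * (Nᵀ * N * O) := by
    simp only [Matrix.transpose_mul, Matrix.transpose_transpose]
    calc Oᵀ * (Nᵀ * O) * (Oᵀ * N * O) = Oᵀ * Nᵀ * (O * Oᵀ) * N * O := by
          simp only [Matrix.mul_assoc]
      _ = _ := by rw [h1]; simp only [Matrix.mul_assoc, Matrix.mul_one]
  rw [e, Matrix.trace_mul_comm, Matrix.mul_assoc, h1, Matrix.mul_one]

theorem bil_col {n : ℕ} (Y : Fin n → Fin n → ℝ) (O : Matrix (Fin n) (Fin n) ℝ) (a : Fin n) :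
    bil Y (fun k => O k a) (fun k => O k a) = (Oᵀ * Matrix.of Y * O) a a := by
  unfold bil
  simp only [Matrix.mul_apply, Matrix.transpose_apply, Matrix.of_apply, Finset.sum_mul]
  rw [Finset.sum_comm]
  exact Finset.sum_congr rfl fun p _ => Finset.sum_congr rfl fun q _ => by ring

theorem key {n : ℕ} (hn : 1 ≤ n) (X Y : Fin n → Fin n → ℝ) (hX : SymS X) (t : ℝ)
    (h : ∀ c : Fin n → ℝ, ∑ i, c i ^ 2 = 1 → bil X c c ^ 2 + bil Y c c ^ 2 ≤ t) :
    (∑ i, ∑ j, X i j ^ 2) + n * mt Y ^ 2 ≤ n * t := by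
  have hM : (Matrix.of X).IsHermitian := by
    ext i j
    simp [hX i j]
  obtain ⟨O, l, h1, h2, h3⟩ := exists_diag (Matrix.of X) hM
  have hn0 : (0 : ℝ) < n := by exact_mod_cast hn
  have hunit : ∀ a : Fin n, ∑ k, (O k a) ^ 2 = 1 := by
    intro a
    have := congrFun (congrFun h1 a) a
    simpa [Matrix.mul_apply, Matrix.one_apply, pow_two] using this
  have hle : ∀ a : Fin n, l a ^ 2 + (Oᵀ * Matrix.of Y * O) a a ^ 2 ≤ t := by
    intro a
    have h4 := h (fun k => O k a) (hunit a)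
    rw [bil_col, bil_col, h3, Matrix.diagonal_apply_eq] at h4
    exact h4
  have hsum : ∑ a : Fin n, (l a ^ 2 + (Oᵀ * Matrix.of Y * O) a a ^ 2) ≤ n * t := by
    calc ∑ a : Fin n, (l a ^ 2 + (Oᵀ * Matrix.of Y * O) a a ^ 2) ≤ ∑ _a : Fin n, t :=
          Finset.sum_le_sum fun a _ => hle a
      _ = n * t := by simp
  rw [Finset.sum_add_distrib] at hsum
  have hl : ∑ a, l a ^ 2 = ∑ i, ∑ j, X i j ^ 2 := by
    have e := fr_conj (Matrix.of X) O h2
    rw [h3] at e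
    simp only [Matrix.of_apply] at e
    rw [← e]
    refine Finset.sum_congr rfl fun i _ => ?_
    rw [Finset.sum_eq_single i]
    · simp
    · intro j _ hj
      simp [Matrix.diagonal_apply_ne _ hj.symm]
    · simp
  have htr : ∑ a, (Oᵀ * Matrix.of Y * O) a a = n * mt Y := by
    have e : (Oᵀ * Matrix.of Y * O).trace = (Matrix.of Y).trace := by
      rw [Matrix.mul_assoc, Matrix.trace_mul_comm, Matrix.mul_assoc, h2, Matrix.mul_one]
    have e2 : ∑ a, (Oᵀ * Matrix.of Y * O) a a = (Oᵀ * Matrix.of Y * O).trace := rfl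
    rw [e2, e]
    unfold Helper35.HC.mt
    simp only [Matrix.trace, Matrix.diag_apply, Matrix.of_apply]
    field_simp
  have hcs : (∑ a, (Oᵀ * Matrix.of Y * O) a a) ^ 2
      ≤ n * ∑ a, (Oᵀ * Matrix.of Y * O) a a ^ 2 := by
    have := sq_sum_le_card_mul_sum_sq (s := (Finset.univ : Finset (Fin n)))
      (f := fun a => (Oᵀ * Matrix.of Y * O) a a)
    simpa using this
  rw [htr] at hcs
  have hcs' : (n : ℝ) * mt Y ^ 2 ≤ ∑ a, (Oᵀ * Matrix.of Y * O) a a ^ 2 := by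
    have h5 : (n : ℝ) * (n * mt Y ^ 2) ≤ n * ∑ a, (Oᵀ * Matrix.of Y * O) a a ^ 2 := by
      calc (n : ℝ) * (n * mt Y ^ 2) = (n * mt Y) ^ 2 := by ring
        _ ≤ _ := hcs
    exact le_of_mul_le_mul_left h5 hn0
  linarith

theorem sq_ip0 {n : ℕ} (hn : 1 ≤ n) (X : Fin n → Fin n → ℝ) :
    ∑ i, ∑ j, X i j ^ 2 = ip0 X X + n * mt X ^ 2 := by
  have hn0 : (n : ℝ) ≠ 0 := by
    have : 0 < n := by omega
    exact_mod_cast this.ne'
  have e1 : ∀ i j : Fin n, X i j ^ 2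
      = tl X i j * tl X i j + (if i = j then 2 * mt X * X i i - mt X ^ 2 else 0) := by
    intro i j
    unfold tl
    by_cases h : i = j
    · subst h; simp; ring
    · simp [h]; ring
  simp_rw [e1, Finset.sum_add_distrib]
  simp only [Finset.sum_ite_eq, Finset.mem_univ, if_true]
  have e2 : ∑ i, X i i = n * mt X := by unfold Helper35.HC.mt; field_simp
  rw [Finset.sum_sub_distrib, ← Finset.mul_sum, e2]
  simp
  unfold ip0
  ring

theorem ip0_nn {n : ℕ} (X : Fin n → Fin n → ℝ) : 0 ≤ ip0 X X := by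
  unfold ip0
  exact Finset.sum_nonneg fun i _ => Finset.sum_nonneg fun j _ => mul_self_nonneg _

theorem bil_comb {n : ℕ} (X : Fin n → Fin n → ℝ) (hX : SymS X) (P Q : Fin n → ℝ) (s e : ℝ) :
    bil X (fun i => s * (P i + e * Q i)) (fun i => s * (P i + e * Q i))
      = s ^ 2 * (bil X P P + 2 * e * bil X P Q + e ^ 2 * bil X Q Q) := by
  have hsw : ∑ i, ∑ j, X i j * (Q i * P j) = ∑ i, ∑ j, X i j * (P i * Q j) := by
    rw [Finset.sum_comm]
    refine Finset.sum_congr rfl fun i _ => Finset.sum_congr rfl fun j _ => ?_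
    rw [hX j i]; ring
  unfold bil
  have e1 : ∀ i j : Fin n, X i j * (s * (P i + e * Q i) * (s * (P j + e * Q j)))
      = s ^ 2 * (X i j * (P i * P j)) + s ^ 2 * e * (X i j * (P i * Q j))
        + s ^ 2 * e * (X i j * (Q i * P j)) + s ^ 2 * e ^ 2 * (X i j * (Q i * Q j)) := by
    intro i j; ring
  simp_rw [e1, Finset.sum_add_distrib, ← Finset.mul_sum]
  rw [hsw]
  ring

theorem half_sq : (Real.sqrt 2 / 2) ^ 2 = 1 / 2 := by
  rw [div_pow, Real.sq_sqrt (by norm_num)]; norm_num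

theorem pq {n : ℕ} (X Y : Fin n → Fin n → ℝ) (hX : SymS X) (hY : SymS Y) (t : ℝ)
    (h : ∀ c : Fin n → ℝ, ∑ i, c i ^ 2 = 1 → bil X c c ^ 2 + bil Y c c ^ 2 ≤ t)
    (P Q : Fin n → ℝ) (hop : OP P Q) : bil X P Q ^ 2 + bil Y P Q ^ 2 ≤ t := by
  obtain ⟨hP, hQ, hPQ⟩ := hop
  set s : ℝ := Real.sqrt 2 / 2 with hs
  have hs2 : s ^ 2 = 1 / 2 := half_sq
  have hunit : ∀ e : ℝ, e ^ 2 = 1 → ∑ i, (s * (P i + e * Q i)) ^ 2 = 1 := by
    intro e he
    have e1 : ∀ i, (s * (P i + e * Q i)) ^ 2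
        = s ^ 2 * P i ^ 2 + s ^ 2 * e ^ 2 * Q i ^ 2 + 2 * s ^ 2 * e * (P i * Q i) := by
      intro i; ring
    simp_rw [e1, Finset.sum_add_distrib, ← Finset.mul_sum]
    rw [hP, hQ, hPQ, he, hs2]
    norm_num
  have h1 := h _ (hunit 1 (by norm_num))
  have h2 := h _ (hunit (-1) (by norm_num))
  rw [bil_comb X hX, bil_comb Y hY, hs2] at h1 h2
  have q1 := sq_nonneg (bil X P P + bil X Q Q)
  have q2 := sq_nonneg (bil Y P P + bil Y Q Q)
  nlinarith [h1, h2, q1, q2]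

theorem hINA (hTRV : StTRV) (hSQB : StSQB) : StINA := by
  intro n hn A r τ L x₀ hA hr hx0 hL hAL hAx hun x hx
  obtain ⟨⟨K, b, ξ, η, sK, sb, kb, hop, hK⟩, -⟩ :=
    hTRV n (by omega) A r L x₀ hA hr hx0 hL hAL hAx
  obtain ⟨-, hYY, hth, -, -, -, -⟩ := hSQB n (n + 3) (by omega) A K b r ξ η x₀ sK sb kb _ rfl
  have hn0 : (0 : ℝ) < n := by
    have : 0 < n := by omega
    exact_mod_cast this
  have hb : ∀ c : Fin n → ℝ, ∑ i, c i ^ 2 = 1 → bil K c c ^ 2 + bil b c c ^ 2 ≤ τ * r := by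
    intro c hc
    rw [← hK c hc]
    exact hun c hc
  have hb' : ∀ c : Fin n → ℝ, ∑ i, c i ^ 2 = 1 → bil b c c ^ 2 + bil K c c ^ 2 ≤ τ * r := by
    intro c hc
    have := hb c hc
    linarith
  have k1 := key (by omega) K b sK _ hb
  have k2 := key (by omega) b K sb _ hb'
  rw [sq_ip0 (by omega)] at k1 k2
  have hxr : x * r = mt K ^ 2 + mt b ^ 2 := by
    rw [hx, hYY]
    field_simp
    ring
  have hx0' : 0 ≤ x := by
    have : 0 ≤ x * r := by rw [hxr]; positivity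
    exact nonneg_of_mul_nonneg_left this hr
  have nK := ip0_nn K
  have nb := ip0_nn b
  have m1 : ip0 K K ≤ n * ((τ - x) * r) := by
    have : n * ((τ - x) * r) = n * (τ * r) - n * (mt K ^ 2 + mt b ^ 2) := by
      rw [← hxr]; ring
    rw [this]; linarith
  have m2 : ip0 b b ≤ n * ((τ - x) * r) := by
    have : n * ((τ - x) * r) = n * (τ * r) - n * (mt K ^ 2 + mt b ^ 2) := by
      rw [← hxr]; ring
    rw [this]; linarith
  refine ⟨hx0', ?_, ?_, ?_⟩
  · have h1 : 0 ≤ (n : ℝ) * ((τ - x) * r) := le_trans nK m1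
    have h2 : 0 ≤ (τ - x) * r := nonneg_of_mul_nonneg_right h1 hn0
    have h3 : 0 ≤ τ - x := nonneg_of_mul_nonneg_left h2 hr
    linarith
  · rw [hth]
    linarith
  · intro P Q hPQ
    rw [hop P Q hPQ]
    exact pq K b sK sb _ hb P Q hPQ

end Helper86.HC
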